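import Pool.Agent.Q185.CK.Graph

/-!
# MP_e9ad42_co: every `{P₄ + P₁, C₄}`-free graph has a clique whose deletion leaves a chordal graph

If `G` is not chordal, it has an induced cycle of length five or six (a longer one contains
`P₄ + P₁`), and the clique can be taken to be the common neighbourhood of two vertices at distance
two on such a cycle (a clique because `G` is `C₄`-free). For a cycle `v1 … v5` of length five,
every vertex is adjacent to two or three consecutive vertices of the cycle or to all of them; the
vertices adjacent to exactly `v_i, v_(i+1)` do not occur for two indices at distance two, so after a
rotation they occur only for `i = 1` or for `i = 1, 2`, and `K = N(v3) ∩ N(v5)` works: the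
remaining classes can be discarded one by one from an induced cycle in `G - K`. If there is no
induced cycle of length five, the classes around an induced cycle of length six form a ring.
-/

namespace Pool.Agent.Results.MP_e9ad42_co.ChordalDeletionClique

open Pool.Q185.CK

/-- Every `{P₄ + P₁, C₄}`-free graph has a clique `K` such that `G - K` is chordal. -/
theorem result {V : Type*} (G : SimpleGraph V) (h1 : ¬ HasInduced P4P1 G)
    (h2 : ¬ HasInduced (SimpleGraph.cycleGraph 4) G) :
    ∃ K : Set V, G.IsClique K ∧ IsChordal (G.induce Kᶜ) :=
  exists_clique G h1 h2

end Pool.Agent.Results.MP_e9ad42_co.ChordalDeletionClique
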